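import Pool.Agent.H251R6.SDD.HilbX

/-!
The curves `Y l = {[1 : 0]} × {([z₀ : z₁], [z₀ : l z₁])}` in `X`.
-/

open MvPolynomial

namespace Pool.Agent.H251R6.SDD

variable {k : Type} [Field k]

/-- Coefficients of the parametrisation of the curve. -/
def cY (l : k) (e : I8) : k := if e 0 = 0 then (if e 2 = 1 then l else 1) else 0

/-- Exponents of the parametrisation of the curve. -/
noncomputable def mY (q : ℕ) (e : I8) : Fin 2 →₀ ℕ :=
  Finsupp.single (e 1) q + Finsupp.single (e 2) q

/-- Parametrisation of the curve, composed with a power map. -/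
noncomputable def pY (l : k) (q : ℕ) (e : I8) : MvPolynomial (Fin 2) k :=
  monomial (mY q e) (cY l e)

lemma vec_pY (l : k) (q : ℕ) (t : Fin 2 → k) (e : I8) :
    vec (pY l q) t e = cY l e * (t (e 1) ^ q * t (e 2) ^ q) := by
  rw [vec, pY, mY, eval_monomial, Finsupp.prod_add_index']
  · have h1 : ∀ i : Fin 2, (Finsupp.single i q).prod (fun n e => t n ^ e) = t i ^ q :=
      fun i => Finsupp.prod_single_index (pow_zero _)
    rw [h1, h1]
  · intro i; exact pow_zero _
  · intro i a b; exact pow_add _ _ _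

/-- The curve `Y l`. -/
noncomputable def YY (l : k) : Set (PSpace k I8) := ParamSet (pY l 1)

/-- Lift of the parameters of the curve to the parameters of `X`. -/
def liftY (l : k) (t : Fin 2 → k) : V6 → k := fun p =>
  if p.1 = 0 then (if p.2 = 0 then 1 else 0) else if p.1 = 1 then t p.2 else
    (if p.2 = 1 then l else 1) * t p.2

lemma vec_liftY (l : k) (t : Fin 2 → k) :
    vec (segP k one3) (liftY l t) = vec (pY l 1) t := by
  funext e
  rw [vec_segP, vec_pY, Fin.prod_univ_three]
  simp only [one3, pow_one, liftY, cY, if_true]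
  have h1 : (1 : Fin 3) ≠ 0 := by decide
  have h2 : (2 : Fin 3) ≠ 0 := by decide
  have h3 : (2 : Fin 3) ≠ 1 := by decide
  simp only [h1, h2, h3, if_false]
  by_cases h : e 0 = 0
  · simp only [h, if_true]
    ring
  · simp only [h, if_false, zero_mul]

lemma tpow_liftY (l : k) (t : Fin 2 → k) (n : ℕ) :
    tpow (fun c => exps c ^ n) (liftY l t) = liftY (l ^ 2 ^ n) (fun i => t i ^ 2 ^ n) := by
  funext ⟨c, i⟩
  have h1 : (1 : Fin 3) ≠ 0 := by decide
  have h2 : (2 : Fin 3) ≠ 0 := by decide
  have h3 : (2 : Fin 3) ≠ 1 := by decide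
  fin_cases c
  · fin_cases i <;> simp [tpow, liftY, exps]
  · simp [tpow, liftY, exps]
  · simp only [tpow, liftY, exps]
    by_cases hi : i = 1
    · subst hi
      simp [mul_pow]
    · simp [hi]

lemma YY_sub (l : k) : YY l ⊆ XX k := by
  rintro _ ⟨t, h, rfl⟩
  have h' : vec (segP k one3) (liftY l t) ≠ 0 := by rw [vec_liftY]; exact h
  refine ⟨liftY l t, h', ?_⟩
  congr 1
  rw [vec_liftY]

lemma ff_iter_Y (l : k) (n : ℕ) (t : Fin 2 → k) (h : vec (pY l 1) t ≠ 0) :
    ∃ h' : vec (pY (l ^ 2 ^ n) 1) (fun i => t i ^ 2 ^ n) ≠ 0,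
      ff^[n] (Projectivization.mk k (vec (pY l 1) t) h) =
        Projectivization.mk k (vec (pY (l ^ 2 ^ n) 1) (fun i => t i ^ 2 ^ n)) h' := by
  have h0 : vec (segP k one3) (liftY l t) ≠ 0 := by rw [vec_liftY]; exact h
  obtain ⟨h1, h2⟩ := ff_iter n (liftY l t) h0
  have e1 : vec (segP k one3) (tpow (fun c => exps c ^ n) (liftY l t)) =
      vec (pY (l ^ 2 ^ n) 1) (fun i => t i ^ 2 ^ n) := by
    rw [tpow_liftY, vec_liftY]
  refine ⟨by rw [← e1]; exact h1, ?_⟩
  have e2 : Projectivization.mk k (vec (pY l 1) t) h =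
      Projectivization.mk k (vec (segP k one3) (liftY l t)) h0 := by
    congr 1
    rw [vec_liftY]
  rw [e2, h2]
  congr 1

lemma image_Y [IsAlgClosed k] {l : k} (hl : l ≠ 0) (n : ℕ) : ff^[n] '' YY l = YY (l ^ 2 ^ n) := by
  apply Set.Subset.antisymm
  · rintro _ ⟨_, ⟨t, h, rfl⟩, rfl⟩
    obtain ⟨h1, h2⟩ := ff_iter_Y l n t h
    exact ⟨_, h1, h2⟩
  · rintro _ ⟨t, h, rfl⟩
    have hr : ∀ i, ∃ y : k, y ^ 2 ^ n = t i := fun i =>
      IsAlgClosed.exists_pow_nat_eq _ (pow_pos two_pos n)
    choose s hs using hr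
    have hs' : (fun i => s i ^ 2 ^ n) = t := funext hs
    have h' : vec (pY l 1) s ≠ 0 := by
      obtain ⟨e, he⟩ := Function.ne_iff.mp h
      rw [vec_pY, Pi.zero_apply] at he
      intro h0
      have h1 := congrFun h0 e
      rw [vec_pY, Pi.zero_apply] at h1
      have h2 := left_ne_zero_of_mul he
      have h3 := right_ne_zero_of_mul he
      rw [← hs, ← hs] at h3
      rcases mul_eq_zero.mp h1 with h4 | h4
      · apply h2
        unfold cY at h4 ⊢
        by_cases h5 : e 0 = 0
        · by_cases h6 : e 2 = 1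
          · simp [h5, h6, hl] at h4
          · simp [h5, h6] at h4
        · simp [h5]
      · rcases mul_eq_zero.mp h4 with h5 | h5
        · rw [pow_one] at h5
          exact h3 (by rw [h5]; simp)
        · rw [pow_one] at h5
          exact h3 (by rw [h5]; simp)
    obtain ⟨h1, h2⟩ := ff_iter_Y l n s h'
    refine ⟨_, ⟨s, h', rfl⟩, ?_⟩
    rw [h2]
    congr 1
    rw [hs']

lemma YY_ratio {l : k} {x : PSpace k I8} (hx : x ∈ YY l) :
    x.rep ![0, 0, 1] = l * x.rep ![0, 1, 0] := by
  obtain ⟨t, h, rfl⟩ := hx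
  obtain ⟨α, hα, hrep⟩ := rep_mk _ h
  rw [hrep]
  simp only [Pi.smul_apply, smul_eq_mul, vec_pY, cY]
  simp
  ring

lemma YY_inj {l m : k} (h : YY l = YY m) : l = m := by
  have h1 : vec (pY l 1) (fun _ => 1) ≠ 0 := by
    intro h0
    have := congrFun h0 ![0, 0, 0]
    rw [vec_pY] at this
    simp [cY] at this
  have hx : Projectivization.mk k _ h1 ∈ YY l := ⟨_, h1, rfl⟩
  obtain ⟨α, hα, hrep⟩ := rep_mk _ h1
  have h2 := YY_ratio (h ▸ hx)
  rw [hrep] at h2
  simp only [Pi.smul_apply, smul_eq_mul, vec_pY, cY] at h2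
  simp at h2
  have h3 : α * l = α * m := by rw [h2]; ring
  exact mul_left_cancel₀ hα h3

/-- The equations of the curve. -/
noncomputable def relY (l : k) : Set (MvPolynomial I8 k) :=
  {G | ∃ e : I8, e 0 = 1 ∧ G = X e ^ 2} ∪
    {(C 1 * X ![0, 0, 1] - C l * X ![0, 1, 0]) * X ![0, 0, 1],
     (C 1 * X ![0, 0, 1] - C l * X ![0, 1, 0]) * X ![0, 1, 0],
     X ![0, 0, 0] * X ![0, 1, 1] - X ![0, 0, 1] * X ![0, 1, 0]}

lemma relY_hom (l : k) : ∀ G ∈ relY l, G.IsHomogeneous 2 := by
  have hlin : (C 1 * X ![0, 0, 1] - C l * X ![0, 1, 0] : MvPolynomial I8 k).IsHomogeneous 1 :=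
    ((isHomogeneous_X k _).C_mul 1).sub ((isHomogeneous_X k _).C_mul l)
  rintro G (⟨e, -, rfl⟩ | h)
  · exact (isHomogeneous_X k _).pow 2
  · simp only [Set.mem_insert_iff, Set.mem_singleton_iff] at h
    rcases h with rfl | rfl | rfl
    · exact hlin.mul (isHomogeneous_X k _)
    · exact hlin.mul (isHomogeneous_X k _)
    · exact ((isHomogeneous_X k _).mul (isHomogeneous_X k _)).sub
        ((isHomogeneous_X k _).mul (isHomogeneous_X k _))

lemma closed_YY {l : k} (hl : l ≠ 0) : IsZariskiClosed (YY l) := by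
  refine ⟨relY l, fun G hG => ⟨2, relY_hom l G hG⟩, ?_⟩
  ext x
  constructor
  · rintro ⟨t, h, rfl⟩
    rw [mem_zeroLocus_mk fun G hG => ⟨2, relY_hom l G hG⟩]
    rintro G (⟨e, he, rfl⟩ | hG)
    · rw [map_pow, eval_X, vec_pY, cY, if_neg (by rw [he]; decide)]
      simp
    · simp only [Set.mem_insert_iff, Set.mem_singleton_iff] at hG
      rcases hG with rfl | rfl | rfl
      · simp only [map_mul, map_sub, eval_X, eval_C, vec_pY, cY]
        simp
        left
        ring
      · simp only [map_mul, map_sub, eval_X, eval_C, vec_pY, cY]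
        simp
        left
        ring
      · simp only [map_mul, map_sub, eval_X, vec_pY, cY]
        simp
        ring
  · intro hx
    have h1 : ∀ e : I8, e 0 = 1 → x.rep e = 0 := by
      intro e he
      have := hx _ (Or.inl ⟨e, he, rfl⟩)
      rw [map_pow, eval_X] at this
      exact pow_eq_zero_iff (two_ne_zero) |>.mp this
    have h2 : (x.rep ![0, 0, 1] - l * x.rep ![0, 1, 0]) * x.rep ![0, 0, 1] = 0 := by
      have := hx _ (Or.inr (Or.inl rfl))
      simpa using this
    have h3 : (x.rep ![0, 0, 1] - l * x.rep ![0, 1, 0]) * x.rep ![0, 1, 0] = 0 := by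
      have := hx _ (Or.inr (Or.inr (Or.inl rfl)))
      simpa using this
    have h4 : x.rep ![0, 0, 0] * x.rep ![0, 1, 1] - x.rep ![0, 0, 1] * x.rep ![0, 1, 0] = 0 := by
      have := hx _ (Or.inr (Or.inr (Or.inr rfl)))
      simpa using this
    have h5 : x.rep ![0, 0, 1] = l * x.rep ![0, 1, 0] := by
      by_contra hne
      have hne' : x.rep ![0, 0, 1] - l * x.rep ![0, 1, 0] ≠ 0 := sub_ne_zero.mpr hne
      have ha := (mul_eq_zero.mp h2).resolve_left hne'
      have hb := (mul_eq_zero.mp h3).resolve_left hne'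
      exact hne (by rw [ha, hb, mul_zero])
    have hall : ∀ e : I8, e 0 = 0 → e = ![0, 0, 0] ∨ e = ![0, 0, 1] ∨ e = ![0, 1, 0] ∨
        e = ![0, 1, 1] := by
      intro e he
      rw [← vec3 e, he]
      generalize e 1 = a
      generalize e 2 = b
      fin_cases a <;> fin_cases b <;> simp
    set v := x.rep with hv
    -- the parameters
    have hexists : ∃ (t : Fin 2 → k) (α : k), α ≠ 0 ∧ vec (pY l 1) t = α • v := by
      by_cases h0 : v ![0, 0, 0] = 0
      · have h6 : v ![0, 1, 0] = 0 := by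
          rw [h0, h5] at h4
          have : l * (v ![0, 1, 0] * v ![0, 1, 0]) = 0 := by linear_combination -h4
          rcases mul_eq_zero.mp this with h7 | h7
          · exact absurd h7 hl
          · exact mul_self_eq_zero.mp h7
        have h7 : v ![0, 0, 1] = 0 := by rw [h5, h6, mul_zero]
        have h8 : v ![0, 1, 1] ≠ 0 := by
          intro h8
          apply x.rep_nonzero
          funext e
          rcases Fin.exists_fin_two.mp ⟨e 0, rfl⟩ with he | he
          · rcases hall e he with rfl | rfl | rfl | rfl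
            · exact h0
            · exact h7
            · exact h6
            · exact h8
          · exact h1 e he
        refine ⟨![0, 1], l / v ![0, 1, 1], div_ne_zero hl h8, ?_⟩
        funext e
        rw [vec_pY, Pi.smul_apply, smul_eq_mul]
        rcases Fin.exists_fin_two.mp ⟨e 0, rfl⟩ with he | he
        · rcases hall e he with rfl | rfl | rfl | rfl
          · rw [h0]; simp [cY]
          · rw [h7]; simp [cY]
          · rw [h6]; simp [cY]
          · rw [div_mul_cancel₀ _ h8]; simp [cY]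
        · rw [h1 e he, cY, if_neg (by rw [he]; decide)]
          simp
      · refine ⟨![v ![0, 0, 0], v ![0, 1, 0]], v ![0, 0, 0], h0, ?_⟩
        funext e
        rw [vec_pY, Pi.smul_apply, smul_eq_mul]
        rcases Fin.exists_fin_two.mp ⟨e 0, rfl⟩ with he | he
        · rcases hall e he with rfl | rfl | rfl | rfl
          · simp [cY]
          · rw [h5]; simp [cY]; ring
          · simp [cY]; ring
          · have h6 : v ![0, 0, 0] * v ![0, 1, 1] = l * (v ![0, 1, 0] * v ![0, 1, 0]) := by
              rw [h5] at h4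
              linear_combination h4
            rw [h6]
            simp [cY]
        · rw [h1 e he, cY, if_neg (by rw [he]; decide)]
          simp
    obtain ⟨t, α, hα, ht⟩ := hexists
    have hne : vec (pY l 1) t ≠ 0 := by
      rw [ht]
      exact smul_ne_zero hα x.rep_nonzero
    refine ⟨t, hne, ?_⟩
    rw [← Projectivization.mk_rep x]
    symm
    exact mk_eq_of_smul _ _ ht

lemma irred_YY [Infinite k] (l : k) : IsIrred (YY l) := by
  refine isIrred_paramSet _ ⟨![0, 0, 0], ?_⟩
  rw [pY]
  intro h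
  rw [monomial_eq_zero] at h
  simp [cY] at h

end Pool.Agent.H251R6.SDD
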