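import Mathlib

/-!
# Projective varieties, their endomorphisms, first dynamical degrees, periodic subvarieties

Classical language: `k` is an algebraically closed field (the algebraic closure of a number field
`K`), projective space is the space of lines of `k ^ ι` for a finite index set `ι` of homogeneous
coordinates, closed sets are common zero sets of homogeneous polynomials.
-/

open MvPolynomial Filter

namespace Pool.Agent.H251R6.SDD

/-- Projective space over `k`, of dimension `|ι| - 1`, with homogeneous coordinates indexed by `ι`. -/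
abbrev PSpace (k : Type) [Field k] (ι : Type) : Type := Projectivization k (ι → k)

section basic

variable {k ι : Type} [Field k]

/-- The common zeros of a set of homogeneous polynomials. -/
def zeroLocus (S : Set (MvPolynomial ι k)) : Set (PSpace k ι) :=
  {x | ∀ G ∈ S, eval x.rep G = 0}

/-- Zariski closed subsets of projective space. -/
def IsZariskiClosed (V : Set (PSpace k ι)) : Prop :=
  ∃ S : Set (MvPolynomial ι k), (∀ G ∈ S, ∃ e : ℕ, G.IsHomogeneous e) ∧ V = zeroLocus S

/-- Zariski closed subsets defined by homogeneous polynomials with coefficients in the subfield `K`. -/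
def IsClosedOver (K : Type) [Field K] [Algebra K k] (V : Set (PSpace k ι)) : Prop :=
  ∃ S : Set (MvPolynomial ι K), (∀ G ∈ S, ∃ e : ℕ, G.IsHomogeneous e) ∧
    V = zeroLocus ((fun G => MvPolynomial.map (algebraMap K k) G) '' S)

/-- Irreducibility for the Zariski topology. -/
def IsIrred (V : Set (PSpace k ι)) : Prop :=
  V.Nonempty ∧ ∀ Z₁ Z₂ : Set (PSpace k ι), IsZariskiClosed Z₁ → IsZariskiClosed Z₂ →
    V ⊆ Z₁ ∪ Z₂ → V ⊆ Z₁ ∨ V ⊆ Z₂

/-- `V` is a (geometrically irreducible) projective variety defined over `K`. -/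
def IsVarietyOver (K : Type) [Field K] [Algebra K k] (V : Set (PSpace k ι)) : Prop :=
  IsClosedOver K V ∧ IsIrred V

/-- `f` restricts to a surjective endomorphism of `V` which is a morphism defined over `K`: around
every point of `V` it is given by homogeneous polynomials of one degree with coefficients in `K`. -/
def IsSurjectiveEndomorphism (K : Type) [Field K] [Algebra K k] (V : Set (PSpace k ι))
    (f : PSpace k ι → PSpace k ι) : Prop :=
  f '' V = V ∧
  ∀ x ∈ V, ∃ (e : ℕ) (F : ι → MvPolynomial ι K), (∀ i, (F i).IsHomogeneous e) ∧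
    (∃ i, aeval x.rep (F i) ≠ 0) ∧
    ∀ y ∈ V, ∀ h : (fun i => aeval y.rep (F i)) ≠ 0,
      f y = Projectivization.mk k (fun i => aeval y.rep (F i)) h

/-- Bidegrees of the variables of `k[X; Y]`: every `X i` has bidegree `(1, 0)`, every `Y i` has
bidegree `(0, 1)`. -/
def biWeight (ι : Type) : ι ⊕ ι → ℕ × ℕ := Sum.elim (fun _ => (1, 0)) (fun _ => (0, 1))

/-- Evaluation of a polynomial in `k[X; Y]` at the points `(x, g x)`, `x ∈ V`, of the graph of `g`
(using the chosen representatives of homogeneous coordinates). -/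
noncomputable def evalGraph (V : Set (PSpace k ι)) (g : PSpace k ι → PSpace k ι) :
    MvPolynomial (ι ⊕ ι) k →ₗ[k] (V → k) :=
  LinearMap.pi fun x => (aeval (Sum.elim x.1.rep (g x.1).rep)).toLinearMap

/-- The bigraded Hilbert function of the graph of `g` on `V`: the dimension of the space of forms
of bidegree `(b, a)` in `k[X; Y]` modulo the forms vanishing on the graph, that is, the dimension
of the image of this space under evaluation on the graph. -/
noncomputable def graphHilbert (V : Set (PSpace k ι)) (g : PSpace k ι → PSpace k ι) (b a : ℕ) : ℕ :=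
  Module.finrank k ((weightedHomogeneousSubmodule k (biWeight ι) (b, a)).map (evalGraph V g))

/-- `(g ^* H · H ^ (r - 1)) = N`, where `r = dim V` and `H` is the hyperplane class of `V`.
For `b, a` large the bigraded Hilbert function of the graph is a polynomial
`∑ c i j b ^ i a ^ j` of total degree `r`, and `(g ^* H · H ^ (r - 1)) = (r - 1)! c (r - 1) 1`
(for a point, `r = 0`, the number is `1` by convention, which gives first dynamical degree `1`). -/
def HasIntersectionNumber (V : Set (PSpace k ι)) (g : PSpace k ι → PSpace k ι) (N : ℚ) : Prop :=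
  ∃ (r : ℕ) (c : ℕ → ℕ → ℚ),
    (∃ B : ℕ, ∀ b ≥ B, ∀ a ≥ B, (graphHilbert V g b a : ℚ) =
      ∑ i ∈ Finset.range (r + 1), ∑ j ∈ Finset.range (r + 1 - i), c i j * b ^ i * a ^ j) ∧
    (∃ i ≤ r, c i (r - i) ≠ 0) ∧
    N = if r = 0 then 1 else (r - 1).factorial * c (r - 1) 1

/-- `δ = lim ((g ^ n) ^* H · H ^ (dim V - 1)) ^ (1 / n)` is the first dynamical degree of `g` on
`V`. -/
def IsFirstDynamicalDegree (V : Set (PSpace k ι)) (g : PSpace k ι → PSpace k ι) (δ : ℝ) : Prop :=
  ∃ N : ℕ → ℚ, (∀ n, 1 ≤ n → HasIntersectionNumber V (g^[n]) (N n)) ∧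
    Tendsto (fun n : ℕ => ((N n : ℚ) : ℝ) ^ ((1 : ℝ) / n)) atTop (nhds δ)

/-- `Y` is `f`-periodic. -/
def IsPeriodic (f : PSpace k ι → PSpace k ι) (Y : Set (PSpace k ι)) : Prop :=
  ∃ s, 0 < s ∧ f^[s] '' Y = Y

/-- The period of an `f`-periodic `Y`: the least `s > 0` with `f ^ s (Y) = Y`. -/
noncomputable def period (f : PSpace k ι → PSpace k ι) (Y : Set (PSpace k ι)) : ℕ :=
  sInf {s | 0 < s ∧ f^[s] '' Y = Y}

/-- `Y ⊆ X` is of small dynamical degree: `d₁(f ^ s |_Y) < d₁(f ^ s)` for some `s > 0` with
`f ^ s (Y) = Y`. -/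
def IsSDD (X : Set (PSpace k ι)) (f : PSpace k ι → PSpace k ι) (Y : Set (PSpace k ι)) : Prop :=
  ∃ s, 0 < s ∧ f^[s] '' Y = Y ∧ ∃ δY δX : ℝ, IsFirstDynamicalDegree Y (f^[s]) δY ∧
    IsFirstDynamicalDegree X (f^[s]) δX ∧ δY < δX

/-- The field `K(x)` generated over `K` by the ratios of the homogeneous coordinates of `x`. -/
noncomputable def pointField (K : Type) [Field K] [Algebra K k] (x : PSpace k ι) :
    IntermediateField K k :=
  IntermediateField.adjoin K {t : k | ∃ i j, x.rep j ≠ 0 ∧ t = x.rep i / x.rep j}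

end basic

end Pool.Agent.H251R6.SDD
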