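import Pool.Agent.H251R6.SDD.HilbY

/-!
First dynamical degrees, periods and the final statement.
-/

open MvPolynomial Filter

namespace Pool.Agent.H251R6.SDD

lemma tendsto_root {u : ℕ → ℝ} {c C δ : ℝ} (hc : 0 < c) (hC : 0 < C) (hδ : 0 < δ)
    (h1 : ∀ n, c * δ ^ n ≤ u n) (h2 : ∀ n, u n ≤ C * δ ^ n) :
    Tendsto (fun n : ℕ => (u n) ^ ((1 : ℝ) / n)) atTop (nhds δ) := by
  have key : ∀ a : ℝ, 0 < a → Tendsto (fun n : ℕ => (a * δ ^ n) ^ ((1 : ℝ) / n)) atTop
      (nhds δ) := by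
    intro a ha
    have e : (fun n : ℕ => (a * δ ^ n) ^ ((1 : ℝ) / n)) =ᶠ[atTop]
        fun n : ℕ => a ^ ((1 : ℝ) / n) * δ := by
      filter_upwards [eventually_ge_atTop 1] with n hn
      have hn' : (n : ℝ) ≠ 0 := by positivity
      rw [Real.mul_rpow ha.le (by positivity), ← Real.rpow_natCast, ← Real.rpow_mul hδ.le,
        mul_one_div_cancel hn', Real.rpow_one]
    rw [tendsto_congr' e]
    have h3 : Tendsto (fun n : ℕ => (1 : ℝ) / n) atTop (nhds 0) :=
      tendsto_one_div_atTop_nhds_zero_nat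
    have h4 : Tendsto (fun n : ℕ => a ^ ((1 : ℝ) / n)) atTop (nhds (a ^ (0 : ℝ))) :=
      (Real.continuousAt_const_rpow ha.ne').tendsto.comp h3
    rw [Real.rpow_zero] at h4
    simpa using h4.mul_const δ
  refine tendsto_of_tendsto_of_tendsto_of_le_of_le (key c hc) (key C hC) ?_ ?_
  · intro n
    exact Real.rpow_le_rpow (by positivity) (h1 n) (by positivity)
  · intro n
    exact Real.rpow_le_rpow (le_trans (by positivity) (h1 n)) (h2 n) (by positivity)

variable {k : Type} [Field k]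

lemma fdd_X [Infinite k] (s : ℕ) : IsFirstDynamicalDegree (XX k) ff^[s] (3 ^ s) := by
  refine ⟨fun n => 2 * (3 ^ (s * n) + 2 * 2 ^ (s * n)), fun n _ => ?_, ?_⟩
  · rw [← Function.iterate_mul]
    exact inter_X (s * n)
  · have h23 : ∀ n : ℕ, (2 : ℝ) ^ (s * n) ≤ 3 ^ (s * n) := fun n =>
      pow_le_pow_left₀ (by norm_num) (by norm_num) _
    refine tendsto_root (c := 2) (C := 6) (by norm_num) (by norm_num) (by positivity) ?_ ?_
    · intro n
      push_cast
      rw [← pow_mul]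
      have := h23 n
      have h2 : (0 : ℝ) < 2 ^ (s * n) := by positivity
      linarith
    · intro n
      push_cast
      rw [← pow_mul]
      have := h23 n
      linarith

lemma pow_iter {l : k} {s : ℕ} (h : l ^ 2 ^ s = l) (n : ℕ) : l ^ 2 ^ (s * n) = l := by
  induction n with
  | zero => simp
  | succ n ih => rw [Nat.mul_succ, pow_add, pow_mul, ih, h]

lemma fdd_Y [Infinite k] {l : k} (hl : l ≠ 0) {s : ℕ} (h : l ^ 2 ^ s = l) :
    IsFirstDynamicalDegree (YY l) ff^[s] (2 ^ s) := by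
  refine ⟨fun n => 2 * 2 ^ (s * n), fun n _ => ?_, ?_⟩
  · rw [← Function.iterate_mul]
    exact inter_Y hl (s * n) (pow_iter h n)
  · refine tendsto_root (c := 2) (C := 2) (by norm_num) (by norm_num) (by positivity) ?_ ?_
    · intro n
      push_cast
      rw [← pow_mul]
    · intro n
      push_cast
      rw [← pow_mul]

/-- The vector of coordinates of the distinguished point. -/
def v0 (k : Type) [Field k] : I8 → k := fun e => if e = 0 then 1 else 0

lemma vec_v0 (l : k) : vec (pY l 1) ![1, 0] = v0 k := by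
  funext e
  rw [vec_pY, v0, cY]
  have : e = ![e 0, e 1, e 2] := (vec3 e).symm
  rw [this]
  generalize e 0 = a
  generalize e 1 = b
  generalize e 2 = c
  have h0 : ∀ a b c : Fin 2, ((![a, b, c] : I8) = 0) ↔ (a = 0 ∧ b = 0 ∧ c = 0) := by decide
  simp only [h0]
  fin_cases a <;> fin_cases b <;> fin_cases c <;> simp

lemma v0_ne : v0 k ≠ 0 := by
  intro h
  have := congrFun h 0
  simp [v0] at this

/-- The distinguished point. -/
noncomputable def pt0 (k : Type) [Field k] : PSpace k I8 := Projectivization.mk k (v0 k) v0_ne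

lemma pt0_mem (l : k) : pt0 k ∈ YY l := by
  refine ⟨![1, 0], by rw [vec_v0]; exact v0_ne, ?_⟩
  rw [pt0]
  congr 1
  rw [vec_v0]

lemma pt0_fixed : ff (pt0 k) = pt0 k := by
  have h : vec (pY (1 : k) 1) ![1, 0] ≠ 0 := by rw [vec_v0]; exact v0_ne
  obtain ⟨h1, h2⟩ := ff_iter_Y (1 : k) 1 ![1, 0] h
  have e0 : pt0 k = Projectivization.mk k (vec (pY (1 : k) 1) ![1, 0]) h := by
    rw [pt0]
    congr 1
    rw [vec_v0]
  have e1 : vec (pY ((1 : k) ^ 2 ^ 1) 1) (fun i => (![1, 0] : Fin 2 → k) i ^ 2 ^ 1) = v0 k := by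
    rw [← vec_v0 (1 : k)]
    congr 1
    · rw [one_pow]
    · funext i
      fin_cases i <;> simp
  rw [Function.iterate_one] at h2
  rw [e0, h2]
  congr 1
  rw [e1, vec_v0]

lemma pt0_field (K : Type) [Field K] [Algebra K k] : pointField K (pt0 k) = ⊥ := by
  rw [pointField, eq_bot_iff, IntermediateField.adjoin_le_iff]
  rintro t ⟨i, j, hj, rfl⟩
  obtain ⟨α, hα, hrep⟩ := rep_mk (v0 k) v0_ne
  have hrep' : (pt0 k).rep = α • v0 k := hrep
  rw [hrep'] at hj ⊢
  simp only [Pi.smul_apply, smul_eq_mul, v0] at hj ⊢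
  have hj0 : j = 0 := by
    by_contra h
    simp [h] at hj
  subst hj0
  by_cases hi : i = 0
  · subst hi
    simp only [if_true, mul_one]
    rw [div_self hα]
    exact one_mem _
  · simp only [hi, if_false, mul_zero, zero_div]
    exact zero_mem _

theorem main (K : Type) [Field K] (k : Type) [Field k] [CharZero k] [Algebra K k]
    [IsAlgClosed k] :
    IsVarietyOver K (XX k) ∧ IsSurjectiveEndomorphism K (XX k) ff ∧
      IsFirstDynamicalDegree (XX k) ff 3 ∧
      pt0 k ∈ XX k ∧ ff (pt0 k) = pt0 k ∧ pointField K (pt0 k) = ⊥ ∧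
      ∀ N : ℕ, ∃ Y ⊆ XX k, IsZariskiClosed Y ∧ IsIrred Y ∧ IsPeriodic ff Y ∧
        IsSDD (XX k) ff Y ∧ N < period ff Y ∧ pt0 k ∈ Y := by
  have : Infinite k := inferInstance
  refine ⟨⟨closedOver_XX K, irred_XX⟩, endo_XX K, ?_, YY_sub 1 (pt0_mem 1), pt0_fixed,
    pt0_field K, ?_⟩
  · have := fdd_X (k := k) 1
    simpa using this
  · intro N
    have hm : 0 < 2 ^ (N + 1) - 1 := by
      have : 2 ^ 1 ≤ 2 ^ (N + 1) := Nat.pow_le_pow_right two_pos (by omega)
      omega
    have : NeZero (2 ^ (N + 1) - 1) := ⟨hm.ne'⟩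
    have : NeZero ((2 ^ (N + 1) - 1 : ℕ) : k) := ⟨by exact_mod_cast hm.ne'⟩
    obtain ⟨l, hprim⟩ := HasEnoughRootsOfUnity.exists_primitiveRoot k (2 ^ (N + 1) - 1)
    have hl : l ≠ 0 := hprim.ne_zero hm.ne'
    have hper : ∀ s, ff^[s] '' YY l = YY l ↔ l ^ 2 ^ s = l := by
      intro s
      rw [image_Y hl]
      constructor
      · exact fun h => YY_inj h
      · intro h
        rw [h]
    have hpow : ∀ s, l ^ 2 ^ s = l ↔ 2 ^ (N + 1) - 1 ∣ 2 ^ s - 1 := by
      intro s
      rw [← hprim.pow_eq_one_iff_dvd]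
      have e : 2 ^ s = (2 ^ s - 1) + 1 := by
        have := Nat.one_le_two_pow (n := s)
        omega
      constructor
      · intro h
        rw [e, pow_succ] at h
        exact mul_right_cancel₀ hl (by rw [h, one_mul])
      · intro h
        rw [e, pow_succ, h, one_mul]
    have hN : l ^ 2 ^ (N + 1) = l := (hpow _).2 dvd_rfl
    refine ⟨YY l, YY_sub l, closed_YY hl, irred_YY l, ⟨N + 1, by omega, (hper _).2 hN⟩,
      ⟨N + 1, by omega, (hper _).2 hN, 2 ^ (N + 1), 3 ^ (N + 1), fdd_Y hl hN, fdd_X _, ?_⟩,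
      ?_, pt0_mem l⟩
    · exact pow_lt_pow_left₀ (by norm_num) (by norm_num) (by omega)
    · have hne : {s | 0 < s ∧ ff^[s] '' YY l = YY l}.Nonempty :=
        ⟨N + 1, by omega, (hper _).2 hN⟩
      obtain ⟨h1, h2⟩ := Nat.sInf_mem hne
      rw [hper, hpow] at h2
      change N < sInf {s | 0 < s ∧ ff^[s] '' YY l = YY l}
      by_contra hcon
      push Not at hcon
      set s := sInf {s | 0 < s ∧ ff^[s] '' YY l = YY l} with hs
      have h3 : 0 < 2 ^ s - 1 := by
        have : 2 ^ 1 ≤ 2 ^ s := Nat.pow_le_pow_right two_pos (by omega)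
        omega
      have h4 := Nat.le_of_dvd h3 h2
      have h5 : 2 ^ s < 2 ^ (N + 1) := Nat.pow_lt_pow_right (by norm_num) (by omega)
      omega

end Pool.Agent.H251R6.SDD
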