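import Pool.Agent.H251R6.SDD.Segre

/-!
The bigraded Hilbert function of the graphs of the iterates on `X`.
-/

open MvPolynomial

namespace Pool.Agent.H251R6.SDD

lemma sum_ind {b i : ℕ} (h : i ≤ b) : (∑ t ∈ Finset.range b, if t < i then 1 else 0) = i := by
  rw [← Finset.card_filter]
  have : Finset.filter (fun t => t < i) (Finset.range b) = Finset.range i := by
    ext t
    simp only [Finset.mem_filter, Finset.mem_range]
    omega
  rw [this, Finset.card_range]

/-- Writing `n ≤ b + A a` as `i + A i'`. -/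
lemma split_num {A a b n : ℕ} (hA : 0 < A) (hb : A ≤ b + 1) (hn : n ≤ b + A * a) :
    ∃ i i', i ≤ b ∧ i' ≤ a ∧ n = i + A * i' := by
  by_cases h : n / A ≤ a
  · refine ⟨n % A, n / A, ?_, h, (Nat.mod_add_div n A).symm⟩
    have := Nat.mod_lt n hA
    omega
  · push Not at h
    have h1 : A * a ≤ n := by
      have := Nat.div_mul_le_self n A
      calc A * a ≤ A * (n / A) := Nat.mul_le_mul_left _ h.le
        _ = n / A * A := mul_comm _ _
        _ ≤ n := this
    exact ⟨n - A * a, a, by omega, le_rfl, by omega⟩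

lemma segM_apply (A : Fin 3 → ℕ) (e : I8) (c : Fin 3) (i : Fin 2) :
    segM A e (c, i) = if e c = i then A c else 0 := by
  rw [segM, Finsupp.finsetSum_apply]
  rw [Finset.sum_eq_single c]
  · rw [Finsupp.single_apply]
    by_cases h : e c = i <;> simp [h]
  · intro c' _ hc'
    rw [Finsupp.single_apply, if_neg]
    intro h
    exact hc' (congrArg Prod.fst h)
  · intro h
    exact absurd (Finset.mem_univ c) h

lemma segM_deg (A : Fin 3 → ℕ) (e : I8) (c : Fin 3) :
    segM A e (c, 0) + segM A e (c, 1) = A c := by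
  rw [segM_apply, segM_apply]
  generalize e c = z
  fin_cases z <;> simp

/-- The exponents occurring on the graph. -/
def expSet (A : Fin 3 → ℕ) (b a : ℕ) : Set (V6 →₀ ℕ) :=
  {D | ∀ c, D (c, 0) + D (c, 1) = b + A c * a}

lemma deg_lin (A : Fin 3 → ℕ) (c : Fin 3) (D' : I8 ⊕ I8 →₀ ℕ) :
    Finsupp.linearCombination ℕ (Sum.elim (segM one3) (segM A)) D' (c, 0) +
      Finsupp.linearCombination ℕ (Sum.elim (segM one3) (segM A)) D' (c, 1) =
    (Finsupp.weight (biWeight I8) D').1 + A c * (Finsupp.weight (biWeight I8) D').2 := by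
  induction D' using Finsupp.induction_linear with
  | zero => simp
  | add f g hf hg =>
    simp only [map_add, Finsupp.add_apply, Prod.fst_add, Prod.snd_add]
    linear_combination hf + hg
  | single i n =>
    rw [Finsupp.linearCombination_single, Finsupp.weight_single]
    rcases i with e | e
    · simp only [Sum.elim_inl, Finsupp.smul_apply, biWeight, smul_eq_mul, Prod.smul_fst,
        Prod.smul_snd]
      have := segM_deg one3 e c
      simp only [one3] at this ⊢
      rw [← mul_add, this]
      simp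
    · simp only [Sum.elim_inr, Finsupp.smul_apply, biWeight, smul_eq_mul, Prod.smul_fst,
        Prod.smul_snd]
      have := segM_deg A e c
      rw [← mul_add, this]
      ring

lemma expSet_eq (A : Fin 3 → ℕ) (hA : ∀ c, 0 < A c) (b a : ℕ) (hb : ∀ c, A c ≤ b + 1) :
    {D : V6 →₀ ℕ | ∃ D' : I8 ⊕ I8 →₀ ℕ, Finsupp.weight (biWeight I8) D' = (b, a) ∧
      (D'.prod fun _ n => (1 : ℚ) ^ n) ≠ 0 ∧
      Finsupp.linearCombination ℕ (Sum.elim (segM one3) (segM A)) D' = D} = expSet A b a := by
  ext D
  constructor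
  · rintro ⟨D', hw, -, rfl⟩ c
    rw [deg_lin, hw]
  · intro hD
    have hD' : ∀ c, D (c, 0) + D (c, 1) = b + A c * a := hD
    have hsp : ∀ c, ∃ p : ℕ × ℕ, p.1 ≤ b ∧ p.2 ≤ a ∧ D (c, 1) = p.1 + A c * p.2 := by
      intro c
      obtain ⟨i, i', h1, h2, h3⟩ := split_num (a := a) (n := D (c, 1)) (hA c) (hb c)
        (by have := hD' c; omega)
      exact ⟨(i, i'), h1, h2, h3⟩
    choose p hp1 hp2 hp3 using hsp
    refine ⟨∑ t ∈ Finset.range b, Finsupp.single (Sum.inl fun c => if t < (p c).1 then 1 else 0) 1 +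
      ∑ t ∈ Finset.range a, Finsupp.single (Sum.inr fun c => if t < (p c).2 then 1 else 0) 1,
      ?_, ?_, ?_⟩
    · rw [map_add, map_sum, map_sum]
      simp only [Finsupp.weight_single, biWeight, Sum.elim_inl, Sum.elim_inr, one_smul,
        Finset.sum_const, Finset.card_range]
      simp
    · simp [Finsupp.prod]
    · have hlin : ∀ E : I8 ⊕ I8 →₀ ℕ, Finsupp.weight (biWeight I8) E = (b, a) →
          (∀ c, Finsupp.linearCombination ℕ (Sum.elim (segM one3) (segM A)) E (c, 1) =
            D (c, 1)) →
          Finsupp.linearCombination ℕ (Sum.elim (segM one3) (segM A)) E = D := by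
        intro E hE h1
        ext ⟨c, i⟩
        have h2 := deg_lin A c E
        rw [hE, h1 c] at h2
        have h3 := hD' c
        have h4 := h1 c
        have h5 : Finsupp.linearCombination ℕ (Sum.elim (segM one3) (segM A)) E (c, 0) =
            D (c, 0) := by
          simp only at h2
          omega
        fin_cases i
        · exact h5
        · exact h4
      apply hlin
      · rw [map_add, map_sum, map_sum]
        simp only [Finsupp.weight_single, biWeight, Sum.elim_inl, Sum.elim_inr, one_smul,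
          Finset.sum_const, Finset.card_range]
        simp
      · intro c
        rw [map_add, map_sum, map_sum]
        simp only [Finsupp.linearCombination_single, Sum.elim_inl, Sum.elim_inr, one_smul]
        rw [Finsupp.add_apply, Finsupp.finsetSum_apply, Finsupp.finsetSum_apply]
        simp only [segM_apply]
        rw [hp3 c]
        have e1 : ∀ (u v : ℕ), (if (if u < v then (1 : Fin 2) else 0) = 1 then one3 c else 0) =
            if u < v then 1 else 0 := by
          intro u v
          by_cases h : u < v <;> simp [h, one3]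
        have e2 : ∀ (u v : ℕ), (if (if u < v then (1 : Fin 2) else 0) = 1 then A c else 0) =
            A c * if u < v then 1 else 0 := by
          intro u v
          by_cases h : u < v <;> simp [h]
        simp only [e1, e2]
        rw [← Finset.mul_sum, sum_ind (hp1 c), sum_ind (hp2 c)]

/-- Parametrisation of the exponents by the exponents of the second variables. -/
noncomputable def expPar (A : Fin 3 → ℕ) (b a : ℕ) (x : (c : Fin 3) → Fin (b + A c * a + 1)) :
    V6 →₀ ℕ :=
  Finsupp.equivFunOnFinite.symm fun p => if p.2 = 1 then (x p.1 : ℕ) else b + A p.1 * a - x p.1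

lemma expPar_inj (A : Fin 3 → ℕ) (b a : ℕ) : Function.Injective (expPar A b a) := by
  intro x y h
  funext c
  have := DFunLike.congr_fun h (c, 1)
  simp only [expPar, Finsupp.equivFunOnFinite_symm_apply_apply, if_true] at this
  exact Fin.ext this

lemma expPar_range (A : Fin 3 → ℕ) (b a : ℕ) : Set.range (expPar A b a) = expSet A b a := by
  ext D
  constructor
  · rintro ⟨x, rfl⟩ c
    have := (x c).2
    simp only [expPar, Finsupp.equivFunOnFinite_symm_apply_apply, if_true, zero_ne_one, if_false]
    omega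
  · intro hD
    have hD' : ∀ c, D (c, 0) + D (c, 1) = b + A c * a := hD
    refine ⟨fun c => ⟨D (c, 1), by have := hD' c; omega⟩, ?_⟩
    ext ⟨c, i⟩
    have := hD' c
    fin_cases i
    · simp only [expPar, Finsupp.equivFunOnFinite_symm_apply_apply, Fin.zero_eta, zero_ne_one,
        if_false]
      omega
    · simp [expPar]

lemma expSet_finite (A : Fin 3 → ℕ) (b a : ℕ) : (expSet A b a).Finite := by
  rw [← expPar_range]
  exact Set.finite_range _

lemma expSet_card (A : Fin 3 → ℕ) (b a : ℕ) :
    (expSet A b a).ncard = ∏ c, (b + A c * a + 1) := by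
  rw [← expPar_range, ← Set.image_univ, Set.ncard_image_of_injective _ (expPar_inj A b a),
    Set.ncard_univ, Nat.card_eq_fintype_card, Fintype.card_pi]
  simp

lemma hilb_X {k : Type} [Field k] [Infinite k] (n b a : ℕ) (hb : 3 ^ n ≤ b + 1) :
    graphHilbert (XX k) ff^[n] b a =
      (b + 3 ^ n * a + 1) * (b + 2 ^ n * a + 1) * (b + 2 ^ n * a + 1) := by
  have hπ : ∃ i, segP k one3 i ≠ 0 := ⟨0, segP_ne_zero _ _⟩
  rw [XX, graphHilbert_param (segP k one3) (segP k fun c => exps c ^ n) hπ]
  · have h1 : (Sum.elim (segP k one3) (segP k fun c => exps c ^ n) : I8 ⊕ I8 → MvPolynomial V6 k) =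
        fun i => monomial (Sum.elim (segM one3) (segM fun c => exps c ^ n) i) (1 : k) := by
      funext i
      rcases i with i | i <;> rfl
    rw [h1, map_weighted (fun _ => (1 : k)) (Sum.elim (segM one3) (segM fun c => exps c ^ n))]
    have hpos : ∀ c, 0 < exps c ^ n := fun c => pow_pos (exps_pos c) n
    have hle : ∀ c, exps c ^ n ≤ b + 1 := by
      intro c
      refine le_trans (Nat.pow_le_pow_left ?_ n) hb
      fin_cases c <;> simp [exps]
    have h2 := expSet_eq (fun c => exps c ^ n) hpos b a hle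
    have h3 : {D : V6 →₀ ℕ | ∃ D' : I8 ⊕ I8 →₀ ℕ, Finsupp.weight (biWeight I8) D' = (b, a) ∧
      (D'.prod fun _ n => (1 : k) ^ n) ≠ 0 ∧
      Finsupp.linearCombination ℕ (Sum.elim (segM one3) (segM fun c => exps c ^ n)) D' = D} =
        expSet (fun c => exps c ^ n) b a := by
      rw [← h2]
      ext D
      simp [Finsupp.prod]
    rw [h3, finrank_restrictSupport _ (expSet_finite _ _ _), expSet_card, Fin.prod_univ_three]
    simp [exps]
  · intro t h
    obtain ⟨h1, h2⟩ := ff_iter n t h
    have h3 : vec (segP k fun c => exps c ^ n) t ≠ 0 := by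
      rw [← vec_tpow]; exact h1
    refine ⟨h3, ?_⟩
    rw [h2]
    congr 1
    rw [vec_tpow]

lemma inter_X {k : Type} [Field k] [Infinite k] (n : ℕ) :
    HasIntersectionNumber (XX k) ff^[n] (2 * (3 ^ n + 2 * 2 ^ n)) := by
  let E1 : ℚ := 3 ^ n + 2 * 2 ^ n
  let E2 : ℚ := 2 * (3 ^ n * 2 ^ n) + 2 ^ n * 2 ^ n
  let E3 : ℚ := 3 ^ n * (2 ^ n * 2 ^ n)
  refine ⟨3, fun i j =>
    if i = 3 ∧ j = 0 then 1 else if i = 2 ∧ j = 1 then E1 else if i = 1 ∧ j = 2 then E2
    else if i = 0 ∧ j = 3 then E3 else if i = 2 ∧ j = 0 then 3 else if i = 1 ∧ j = 1 then 2 * E1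
    else if i = 0 ∧ j = 2 then E2 else if i = 1 ∧ j = 0 then 3 else if i = 0 ∧ j = 1 then E1 else 1,
    ⟨3 ^ n, ?_⟩, ⟨3, le_rfl, ?_⟩, ?_⟩
  · intro b hb a _
    rw [hilb_X n b a (by omega)]
    simp [Finset.sum_range_succ, E1, E2, E3]
    ring
  · simp
  · simp [E1]

end Pool.Agent.H251R6.SDD
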