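import Pool.Agent.H251R6.SDD.Curve

/-!
The bigraded Hilbert function of the graphs of the iterates on the curves `Y l`.
-/

open MvPolynomial

namespace Pool.Agent.H251R6.SDD

variable {k : Type} [Field k]

lemma sum_ind2 (b i : ℕ) (h : i ≤ 2 * b) :
    (∑ t ∈ Finset.range b, ((if 2 * t < i then 1 else 0) + (if 2 * t + 1 < i then 1 else 0))) = i := by
  have : ∀ b, (∑ t ∈ Finset.range b, ((if 2 * t < i then 1 else 0) +
      (if 2 * t + 1 < i then 1 else 0))) = min i (2 * b) := by
    intro b
    induction b with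
    | zero => simp
    | succ b ih =>
      rw [Finset.sum_range_succ, ih]
      split_ifs <;> omega
  rw [this b]
  omega

lemma mY_apply (q : ℕ) (e : I8) (i : Fin 2) :
    mY q e i = (if e 1 = i then q else 0) + (if e 2 = i then q else 0) := by
  rw [mY, Finsupp.add_apply, Finsupp.single_apply, Finsupp.single_apply]

lemma mY_deg (q : ℕ) (e : I8) : mY q e 0 + mY q e 1 = 2 * q := by
  rw [mY_apply, mY_apply]
  generalize e 1 = a
  generalize e 2 = b
  fin_cases a <;> fin_cases b <;> simp <;> omega

lemma degY_lin (q : ℕ) (D' : I8 ⊕ I8 →₀ ℕ) :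
    Finsupp.linearCombination ℕ (Sum.elim (mY 1) (mY q)) D' 0 +
      Finsupp.linearCombination ℕ (Sum.elim (mY 1) (mY q)) D' 1 =
    2 * (Finsupp.weight (biWeight I8) D').1 + 2 * q * (Finsupp.weight (biWeight I8) D').2 := by
  induction D' using Finsupp.induction_linear with
  | zero => simp
  | add f g hf hg =>
    simp only [map_add, Finsupp.add_apply, Prod.fst_add, Prod.snd_add]
    linear_combination hf + hg
  | single i n =>
    rw [Finsupp.linearCombination_single, Finsupp.weight_single]
    rcases i with e | e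
    · simp only [Sum.elim_inl, Finsupp.smul_apply, biWeight, smul_eq_mul, Prod.smul_fst,
        Prod.smul_snd]
      rw [← mul_add, mY_deg]
      ring
    · simp only [Sum.elim_inr, Finsupp.smul_apply, biWeight, smul_eq_mul, Prod.smul_fst,
        Prod.smul_snd]
      rw [← mul_add, mY_deg]
      ring

lemma prod_sum_single_ne {σ : Type} (c : σ → k) (g : ℕ → σ) (hg : ∀ t, c (g t) ≠ 0) (b : ℕ) :
    ((∑ t ∈ Finset.range b, Finsupp.single (g t) 1 : σ →₀ ℕ).prod fun i n => c i ^ n) ≠ 0 := by
  induction b with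
  | zero => simp
  | succ b ih =>
    rw [Finset.sum_range_succ, Finsupp.prod_add_index' (fun i => pow_zero _)
      (fun i => pow_add _)]
    refine mul_ne_zero ih ?_
    have h1 : (Finsupp.single (g b) 1 : σ →₀ ℕ).prod (fun i n => c i ^ n) = c (g b) ^ 1 :=
      Finsupp.prod_single_index (pow_zero _)
    rw [h1, pow_one]
    exact hg b

lemma expSetY_eq {l : k} (hl : l ≠ 0) (q : ℕ) (hq : 0 < q) (b a : ℕ) (hb : q ≤ 2 * b + 1) :
    {D : Fin 2 →₀ ℕ | ∃ D' : I8 ⊕ I8 →₀ ℕ, Finsupp.weight (biWeight I8) D' = (b, a) ∧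
      (D'.prod fun i n => (Sum.elim (cY l) (cY l) i) ^ n) ≠ 0 ∧
      Finsupp.linearCombination ℕ (Sum.elim (mY 1) (mY q)) D' = D} =
    {D | D 0 + D 1 = 2 * b + 2 * q * a} := by
  ext D
  constructor
  · rintro ⟨D', hw, -, rfl⟩
    have := degY_lin q D'
    rw [hw] at this
    exact this
  · intro hD
    have hD' : D 0 + D 1 = 2 * b + 2 * q * a := hD
    obtain ⟨i, i', h1, h2, h3⟩ := split_num (a := 2 * a) (n := D 1) hq hb (by
      have : q * (2 * a) = 2 * q * a := by ring
      omega)
    have hc : ∀ u v : Fin 2, cY l ![0, u, v] ≠ 0 := by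
      intro u v
      fin_cases v <;> simp [cY, hl]
    refine ⟨∑ t ∈ Finset.range b, Finsupp.single (Sum.inl ![0, if 2 * t < i then 1 else 0,
        if 2 * t + 1 < i then 1 else 0]) 1 +
      ∑ t ∈ Finset.range a, Finsupp.single (Sum.inr ![0, if 2 * t < i' then 1 else 0,
        if 2 * t + 1 < i' then 1 else 0]) 1, ?_, ?_, ?_⟩
    · rw [map_add, map_sum, map_sum]
      simp only [Finsupp.weight_single, biWeight, Sum.elim_inl, Sum.elim_inr, one_smul,
        Finset.sum_const, Finset.card_range]
      simp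
    · rw [Finsupp.prod_add_index' (fun i => pow_zero _) (fun i => pow_add _)]
      refine mul_ne_zero ?_ ?_
      · exact prod_sum_single_ne (Sum.elim (cY l) (cY l)) (fun t => Sum.inl
          ![0, if 2 * t < i then 1 else 0, if 2 * t + 1 < i then 1 else 0]) (fun t => hc _ _) b
      · exact prod_sum_single_ne (Sum.elim (cY l) (cY l)) (fun t => Sum.inr
          ![0, if 2 * t < i' then 1 else 0, if 2 * t + 1 < i' then 1 else 0]) (fun t => hc _ _) a
    · have hlin : ∀ E : I8 ⊕ I8 →₀ ℕ, Finsupp.weight (biWeight I8) E = (b, a) →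
          Finsupp.linearCombination ℕ (Sum.elim (mY 1) (mY q)) E 1 = D 1 →
          Finsupp.linearCombination ℕ (Sum.elim (mY 1) (mY q)) E = D := by
        intro E hE h1
        have h2 := degY_lin q E
        rw [hE, h1] at h2
        simp only at h2
        have h5 : Finsupp.linearCombination ℕ (Sum.elim (mY 1) (mY q)) E 0 = D 0 := by omega
        ext i
        fin_cases i
        · exact h5
        · exact h1
      apply hlin
      · rw [map_add, map_sum, map_sum]
        simp only [Finsupp.weight_single, biWeight, Sum.elim_inl, Sum.elim_inr, one_smul,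
          Finset.sum_const, Finset.card_range]
        simp
      · rw [map_add, map_sum, map_sum]
        simp only [Finsupp.linearCombination_single, Sum.elim_inl, Sum.elim_inr, one_smul]
        rw [Finsupp.add_apply, Finsupp.finsetSum_apply, Finsupp.finsetSum_apply]
        simp only [mY_apply]
        rw [h3]
        have e1 : ∀ (w u v u' v' : ℕ), ((if (![0, if u < v then 1 else 0,
            if u' < v' then 1 else 0] : I8) 1 = 1 then w else 0) +
            if (![0, if u < v then 1 else 0, if u' < v' then 1 else 0] : I8) 2 = 1 then w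
            else 0) = w * ((if u < v then 1 else 0) + (if u' < v' then 1 else 0)) := by
          intro w u v u' v'
          by_cases h : u < v <;> by_cases h' : u' < v' <;> simp [h, h'] <;> ring
        simp only [e1]
        rw [← Finset.mul_sum, ← Finset.mul_sum, sum_ind2 b i h1, sum_ind2 a i' h2, one_mul]

/-- Parametrisation of the exponents. -/
noncomputable def expParY (n : ℕ) (x : Fin (n + 1)) : Fin 2 →₀ ℕ :=
  Finsupp.equivFunOnFinite.symm ![n - x, x]

lemma expParY_inj (n : ℕ) : Function.Injective (expParY n) := by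
  intro x y h
  have := DFunLike.congr_fun h 1
  simp only [expParY, Finsupp.equivFunOnFinite_symm_apply_apply] at this
  exact Fin.ext this

lemma expParY_range (n : ℕ) : Set.range (expParY n) = {D : Fin 2 →₀ ℕ | D 0 + D 1 = n} := by
  ext D
  constructor
  · rintro ⟨x, rfl⟩
    have := x.2
    simp only [expParY, Set.mem_ofPred_eq, Finsupp.equivFunOnFinite_symm_apply_apply,
      Matrix.cons_val_zero, Matrix.cons_val_one]
    omega
  · intro hD
    have hD' : D 0 + D 1 = n := hD
    refine ⟨⟨D 1, by omega⟩, ?_⟩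
    ext i
    fin_cases i
    · simp [expParY]
      omega
    · simp [expParY]

lemma expSetY_card (n : ℕ) : {D : Fin 2 →₀ ℕ | D 0 + D 1 = n}.ncard = n + 1 := by
  rw [← expParY_range, ← Set.image_univ, Set.ncard_image_of_injective _ (expParY_inj n),
    Set.ncard_univ, Nat.card_eq_fintype_card, Fintype.card_fin]

lemma expSetY_finite (n : ℕ) : {D : Fin 2 →₀ ℕ | D 0 + D 1 = n}.Finite := by
  rw [← expParY_range]
  exact Set.finite_range _

lemma hilb_Y [Infinite k] {l : k} (hl : l ≠ 0) (n : ℕ) (hn : l ^ 2 ^ n = l) (b a : ℕ)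
    (hb : 2 ^ n ≤ 2 * b + 1) :
    graphHilbert (YY l) ff^[n] b a = 2 * b + 2 * 2 ^ n * a + 1 := by
  have hπ : ∃ i, pY l 1 i ≠ 0 := by
    refine ⟨![0, 0, 0], ?_⟩
    rw [pY]
    intro h
    rw [monomial_eq_zero] at h
    simp [cY] at h
  rw [YY, graphHilbert_param (pY l 1) (pY l (2 ^ n)) hπ]
  · have h1 : (Sum.elim (pY l 1) (pY l (2 ^ n)) : I8 ⊕ I8 → MvPolynomial (Fin 2) k) =
        fun i => monomial (Sum.elim (mY 1) (mY (2 ^ n)) i) (Sum.elim (cY l) (cY l) i) := by
      funext i
      rcases i with i | i <;> rfl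
    rw [h1, map_weighted (Sum.elim (cY l) (cY l)) (Sum.elim (mY 1) (mY (2 ^ n))),
      expSetY_eq hl (2 ^ n) (pow_pos two_pos n) b a hb,
      finrank_restrictSupport _ (expSetY_finite _), expSetY_card]
  · intro t h
    obtain ⟨h1, h2⟩ := ff_iter_Y l n t h
    have h3 : vec (pY (l ^ 2 ^ n) 1) (fun i => t i ^ 2 ^ n) = vec (pY l (2 ^ n)) t := by
      rw [hn]
      funext e
      rw [vec_pY, vec_pY, pow_one, pow_one]
    refine ⟨by rw [← h3]; exact h1, ?_⟩
    rw [h2]
    congr 1

lemma inter_Y [Infinite k] {l : k} (hl : l ≠ 0) (n : ℕ) (hn : l ^ 2 ^ n = l) :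
    HasIntersectionNumber (YY l) ff^[n] (2 * 2 ^ n) := by
  refine ⟨1, fun i j =>
    if i = 1 ∧ j = 0 then 2 else if i = 0 ∧ j = 1 then 2 * 2 ^ n else 1,
    ⟨2 ^ n, ?_⟩, ⟨1, le_rfl, ?_⟩, ?_⟩
  · intro b hb a _
    rw [hilb_Y hl n hn b a (by omega)]
    simp [Finset.sum_range_succ]
    ring
  · simp
  · simp

end Pool.Agent.H251R6.SDD
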