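import Pool.Agent.H251R6.SDD.Defs

/-!
General lemmas on parametrised varieties.
-/

open MvPolynomial

namespace Pool.Agent.H251R6.SDD

variable {k ι τ : Type} [Field k]

/-- Scaling of a weighted homogeneous polynomial. -/
lemma eval_scale {σ : Type} {w : σ → ℕ × ℕ} {b a : ℕ} {F : MvPolynomial σ k}
    (hF : F.IsWeightedHomogeneous w (b, a)) (α β : k) (v : σ → k) :
    eval (fun i => (α ^ (w i).1 * β ^ (w i).2) * v i) F = α ^ b * β ^ a * eval v F := by
  rw [eval_eq, eval_eq, Finset.mul_sum]
  refine Finset.sum_congr rfl fun d hd => ?_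
  have hw := hF (mem_support_iff.mp hd)
  rw [Finsupp.weight_apply, Finsupp.sum] at hw
  have h1 : (∑ i ∈ d.support, d i * (w i).1) = b := by
    have := congrArg Prod.fst hw
    simpa [Prod.fst_sum] using this
  have h2 : (∑ i ∈ d.support, d i * (w i).2) = a := by
    have := congrArg Prod.snd hw
    simpa [Prod.snd_sum] using this
  have h3 : ∏ i ∈ d.support, ((α ^ (w i).1 * β ^ (w i).2) * v i) ^ d i =
      α ^ b * β ^ a * ∏ i ∈ d.support, v i ^ d i := by
    rw [← h1, ← h2, ← Finset.prod_pow_eq_pow_sum, ← Finset.prod_pow_eq_pow_sum,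
      ← Finset.prod_mul_distrib, ← Finset.prod_mul_distrib]
    refine Finset.prod_congr rfl fun i _ => ?_
    rw [mul_pow, mul_pow, ← pow_mul, ← pow_mul, mul_comm (w i).1, mul_comm (w i).2]
  rw [h3]
  ring

lemma eval_smul_homog {e : ℕ} {F : MvPolynomial ι k} (hF : F.IsHomogeneous e) (α : k)
    (v : ι → k) : eval (α • v) F = α ^ e * eval v F := by
  rw [eval_eq, eval_eq, Finset.mul_sum]
  refine Finset.sum_congr rfl fun d hd => ?_
  have hw := hF (mem_support_iff.mp hd)
  rw [Finsupp.weight_apply, Finsupp.sum] at hw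
  have h1 : (∑ i ∈ d.support, d i) = e := by simpa using hw
  have h3 : ∏ i ∈ d.support, ((α • v) i) ^ d i = α ^ e * ∏ i ∈ d.support, v i ^ d i := by
    rw [← h1, ← Finset.prod_pow_eq_pow_sum, ← Finset.prod_mul_distrib]
    refine Finset.prod_congr rfl fun i _ => ?_
    simp [mul_pow]
  rw [h3]
  ring

lemma rep_mk (v : ι → k) (hv : v ≠ 0) :
    ∃ α : k, α ≠ 0 ∧ (Projectivization.mk k v hv).rep = α • v := by
  obtain ⟨a, ha⟩ := Projectivization.exists_smul_eq_mk_rep k v hv
  exact ⟨a, a.ne_zero, by rw [← ha]; rfl⟩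

lemma mk_eq_of_smul {v w : ι → k} (hv : v ≠ 0) (hw : w ≠ 0) {α : k} (h : v = α • w) :
    Projectivization.mk k v hv = Projectivization.mk k w hw := by
  rw [Projectivization.mk_eq_mk_iff']
  exact ⟨α, h.symm⟩

lemma mem_zeroLocus_mk {S : Set (MvPolynomial ι k)} (hS : ∀ G ∈ S, ∃ e : ℕ, G.IsHomogeneous e)
    (v : ι → k) (hv : v ≠ 0) :
    Projectivization.mk k v hv ∈ zeroLocus S ↔ ∀ G ∈ S, eval v G = 0 := by
  obtain ⟨α, hα, h⟩ := rep_mk v hv
  constructor
  · intro hx G hG
    obtain ⟨e, he⟩ := hS G hG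
    have h1 := hx G hG
    rw [h, eval_smul_homog he] at h1
    exact (mul_eq_zero.mp h1).resolve_left (pow_ne_zero _ hα)
  · intro hx G hG
    obtain ⟨e, he⟩ := hS G hG
    rw [h, eval_smul_homog he, hx G hG, mul_zero]

/-- The vector of values of a tuple of polynomials. -/
noncomputable def vec (π : ι → MvPolynomial τ k) (t : τ → k) : ι → k := fun i => eval t (π i)

/-- The set of points parametrised by the tuple `π` of polynomials. -/
def ParamSet (π : ι → MvPolynomial τ k) : Set (PSpace k ι) :=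
  {x | ∃ (t : τ → k) (h : vec π t ≠ 0), x = Projectivization.mk k (vec π t) h}

lemma eval_vec (π : ι → MvPolynomial τ k) (t : τ → k) (G : MvPolynomial ι k) :
    eval (vec π t) G = eval t (aeval π G) := by
  rw [aeval_def, eval_eval₂, ← eval₂_id]
  congr 1
  ext x
  simp

lemma isIrred_paramSet [Infinite k] (π : ι → MvPolynomial τ k) (hπ : ∃ i, π i ≠ 0) :
    IsIrred (ParamSet π) := by
  obtain ⟨i₀, hi₀⟩ := hπ
  constructor
  · obtain ⟨t, ht⟩ : ∃ t, eval t (π i₀) ≠ 0 := by
      by_contra hcon
      push Not at hcon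
      exact hi₀ (MvPolynomial.funext fun x => by rw [hcon x, map_zero])
    have hv : vec π t ≠ 0 := fun h => ht (congrFun h i₀)
    exact ⟨_, t, hv, rfl⟩
  · rintro Z₁ Z₂ ⟨S₁, hS₁, rfl⟩ ⟨S₂, hS₂, rfl⟩ hsub
    by_contra hcon
    push Not at hcon
    obtain ⟨h1, h2⟩ := hcon
    rw [Set.not_subset] at h1 h2
    obtain ⟨_, ⟨t₁, ht₁, rfl⟩, hn1⟩ := h1
    obtain ⟨_, ⟨t₂, ht₂, rfl⟩, hn2⟩ := h2
    rw [mem_zeroLocus_mk hS₁] at hn1
    rw [mem_zeroLocus_mk hS₂] at hn2
    push Not at hn1 hn2
    obtain ⟨G₁, hG₁, hn1⟩ := hn1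
    obtain ⟨G₂, hG₂, hn2⟩ := hn2
    rw [eval_vec] at hn1 hn2
    have hA : aeval π G₁ ≠ 0 := fun h => hn1 (by rw [h, map_zero])
    have hB : aeval π G₂ ≠ 0 := fun h => hn2 (by rw [h, map_zero])
    have hprod : aeval π G₁ * aeval π G₂ * π i₀ ≠ 0 := mul_ne_zero (mul_ne_zero hA hB) hi₀
    obtain ⟨t, ht⟩ : ∃ t, eval t (aeval π G₁ * aeval π G₂ * π i₀) ≠ 0 := by
      by_contra hcon
      push Not at hcon
      exact hprod (MvPolynomial.funext fun x => by rw [hcon x, map_zero])
    rw [map_mul, map_mul] at ht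
    have hv : vec π t ≠ 0 := fun h => ht (by
      have : eval t (π i₀) = 0 := congrFun h i₀
      rw [this, mul_zero])
    rcases hsub ⟨t, hv, rfl⟩ with h | h
    · rw [mem_zeroLocus_mk hS₁] at h
      have := h G₁ hG₁
      rw [eval_vec] at this
      exact ht (by rw [this, zero_mul, zero_mul])
    · rw [mem_zeroLocus_mk hS₂] at h
      have := h G₂ hG₂
      rw [eval_vec] at this
      exact ht (by rw [this, mul_zero, zero_mul])

/-- Two linear maps with the same kernel on a submodule have images of the same dimension. -/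
lemma finrank_map_eq_of_ker {M N₁ N₂ : Type} [AddCommGroup M] [Module k M] [AddCommGroup N₁]
    [Module k N₁] [AddCommGroup N₂] [Module k N₂] (W : Submodule k M) (A : M →ₗ[k] N₁)
    (B : M →ₗ[k] N₂) (h : ∀ x ∈ W, A x = 0 ↔ B x = 0) :
    Module.finrank k (W.map A) = Module.finrank k (W.map B) := by
  have h1 : W.map A = LinearMap.range (A.domRestrict W) := by
    rw [LinearMap.domRestrict, LinearMap.range_comp, Submodule.range_subtype]
  have h2 : W.map B = LinearMap.range (B.domRestrict W) := by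
    rw [LinearMap.domRestrict, LinearMap.range_comp, Submodule.range_subtype]
  have h3 : LinearMap.ker (A.domRestrict W) = LinearMap.ker (B.domRestrict W) := by
    ext x
    rw [LinearMap.mem_ker, LinearMap.mem_ker, LinearMap.domRestrict_apply,
      LinearMap.domRestrict_apply]
    exact h x.1 x.2
  rw [h1, h2, ← (LinearMap.quotKerEquivRange (A.domRestrict W)).finrank_eq,
    ← (LinearMap.quotKerEquivRange (B.domRestrict W)).finrank_eq, h3]

/-- The bigraded Hilbert function of the graph of a parametrised map. -/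
lemma graphHilbert_param [Infinite k] (π ρ : ι → MvPolynomial τ k) (hπ : ∃ i, π i ≠ 0)
    (g : PSpace k ι → PSpace k ι)
    (hg : ∀ t, ∀ h : vec π t ≠ 0, ∃ h' : vec ρ t ≠ 0,
      g (Projectivization.mk k (vec π t) h) = Projectivization.mk k (vec ρ t) h') (b a : ℕ) :
    graphHilbert (ParamSet π) g b a =
      Module.finrank k ((weightedHomogeneousSubmodule k (biWeight ι) (b, a)).map
        (aeval (Sum.elim π ρ) : MvPolynomial (ι ⊕ ι) k →ₐ[k] MvPolynomial τ k).toLinearMap) := by
  obtain ⟨i₀, hi₀⟩ := hπ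
  refine finrank_map_eq_of_ker _ _ _ fun F hF => ?_
  have hF' : F.IsWeightedHomogeneous (biWeight ι) (b, a) := hF
  -- the key evaluation formula
  have key : ∀ t, ∀ h : vec π t ≠ 0, ∃ α β : k, α ≠ 0 ∧ β ≠ 0 ∧
      aeval (Sum.elim (Projectivization.mk k (vec π t) h).rep
        (g (Projectivization.mk k (vec π t) h)).rep) F =
      α ^ b * β ^ a * eval t (aeval (Sum.elim π ρ) F) := by
    intro t h
    obtain ⟨h', hgt⟩ := hg t h
    obtain ⟨α, hα, hα'⟩ := rep_mk _ h
    obtain ⟨β, hβ, hβ'⟩ := rep_mk _ h'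
    refine ⟨α, β, hα, hβ, ?_⟩
    rw [hgt, hα', hβ']
    have h1 : (Sum.elim (α • vec π t) (β • vec ρ t) : ι ⊕ ι → k) =
        fun i => (α ^ (biWeight ι i).1 * β ^ (biWeight ι i).2) *
          (vec (Sum.elim π ρ) t) i := by
      funext i
      rcases i with i | i <;> simp [biWeight, vec]
    have h2 : ∀ v : ι ⊕ ι → k, (aeval v F : k) = eval v F := fun v => by
      rw [← coe_aeval_eq_eval]; rfl
    rw [h1, h2, eval_scale hF', eval_vec]
  constructor
  · intro hA
    have hzero : π i₀ * aeval (Sum.elim π ρ) F = 0 := by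
      apply MvPolynomial.funext
      intro t
      rw [map_zero, map_mul]
      by_cases h0 : eval t (π i₀) = 0
      · rw [h0, zero_mul]
      · have hv : vec π t ≠ 0 := fun h => h0 (congrFun h i₀)
        obtain ⟨α, β, hα, hβ, hkey⟩ := key t hv
        have hA' := congrFun hA ⟨Projectivization.mk k (vec π t) hv, t, hv, rfl⟩
        have hA'' : aeval (Sum.elim (Projectivization.mk k (vec π t) hv).rep
          (g (Projectivization.mk k (vec π t) hv)).rep) F = 0 := hA'
        rw [hkey] at hA''
        have := (mul_eq_zero.mp hA'').resolve_left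
          (mul_ne_zero (pow_ne_zero _ hα) (pow_ne_zero _ hβ))
        rw [this, mul_zero]
    exact (mul_eq_zero.mp hzero).resolve_left hi₀
  · intro hB
    funext x
    obtain ⟨x, t, hv, rfl⟩ := x
    obtain ⟨α, β, hα, hβ, hkey⟩ := key t hv
    change aeval (Sum.elim (Projectivization.mk k (vec π t) hv).rep
          (g (Projectivization.mk k (vec π t) hv)).rep) F = 0
    rw [hkey]
    have hB' : aeval (Sum.elim π ρ) F = 0 := hB
    rw [hB', map_zero, mul_zero]

/-- The image of a space of weighted homogeneous forms under a monomial substitution. -/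
lemma map_weighted {σ : Type} {w : σ → ℕ × ℕ} {p : ℕ × ℕ} (c : σ → k) (m : σ → τ →₀ ℕ) :
    (weightedHomogeneousSubmodule k w p).map
      (aeval (fun i => monomial (m i) (c i)) : MvPolynomial σ k →ₐ[k] MvPolynomial τ k).toLinearMap =
    restrictSupport k {D : τ →₀ ℕ | ∃ D' : σ →₀ ℕ, Finsupp.weight w D' = p ∧
      (D'.prod fun i n => c i ^ n) ≠ 0 ∧ Finsupp.linearCombination ℕ m D' = D} := by
  have hmon : ∀ (D' : σ →₀ ℕ) (r : k),
      aeval (fun i => monomial (m i) (c i)) (monomial D' r) =
        monomial (Finsupp.linearCombination ℕ m D') (r * D'.prod fun i n => c i ^ n) := by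
    intro D' r
    rw [aeval_monomial, MvPolynomial.algebraMap_eq]
    have h1 : (D'.prod fun i n => (monomial (m i) (c i) : MvPolynomial τ k) ^ n) =
        monomial (Finsupp.linearCombination ℕ m D') (D'.prod fun i n => c i ^ n) := by
      rw [Finsupp.linearCombination_apply, Finsupp.prod, Finsupp.sum, Finsupp.prod]
      induction D'.support using Finset.cons_induction with
      | empty => simp
      | cons i s hi ih =>
        rw [Finset.prod_cons, Finset.sum_cons, Finset.prod_cons, ih, monomial_pow, monomial_mul]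
    rw [h1, C_mul_monomial]
  have hW : weightedHomogeneousSubmodule k w p =
      Submodule.span k ((fun D => monomial D (1 : k)) '' {d : σ →₀ ℕ | Finsupp.weight w d = p}) := by
    rw [weightedHomogeneousSubmodule_eq_finsupp_supported]
    exact restrictSupport_eq_span k _
  rw [hW, Submodule.map_span, restrictSupport_eq_span]
  apply le_antisymm
  · rw [Submodule.span_le]
    rintro _ ⟨_, ⟨D', hD', rfl⟩, rfl⟩
    change aeval (fun i => monomial (m i) (c i)) (monomial D' (1 : k)) ∈ _
    rw [hmon, one_mul]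
    by_cases h0 : (D'.prod fun i n => c i ^ n) = 0
    · rw [h0, monomial_zero]; exact Submodule.zero_mem _
    · have h1 : monomial (Finsupp.linearCombination ℕ m D') (D'.prod fun i n => c i ^ n) =
          (D'.prod fun i n => c i ^ n) • (monomial (Finsupp.linearCombination ℕ m D') (1 : k)) := by
        rw [smul_monomial, smul_eq_mul, mul_one]
      rw [h1]
      exact Submodule.smul_mem _ _ (Submodule.subset_span ⟨_, ⟨D', hD', h0, rfl⟩, rfl⟩)
  · rw [Submodule.span_le]
    rintro _ ⟨_, ⟨D', hD', h0, rfl⟩, rfl⟩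
    have h1 : (monomial (Finsupp.linearCombination ℕ m D') (1 : k)) =
        (D'.prod fun i n => c i ^ n)⁻¹ • (aeval (fun i => monomial (m i) (c i)) (monomial D' (1 : k))) := by
      rw [hmon, one_mul, smul_monomial, smul_eq_mul, inv_mul_cancel₀ h0]
    change monomial (Finsupp.linearCombination ℕ m D') (1 : k) ∈ _
    rw [h1]
    exact Submodule.smul_mem _ _ (Submodule.subset_span ⟨_, ⟨D', hD', rfl⟩, rfl⟩)

lemma finrank_restrictSupport (s : Set (τ →₀ ℕ)) (hs : s.Finite) :
    Module.finrank k (restrictSupport k s) = s.ncard := by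
  have : Fintype s := hs.fintype
  rw [Module.finrank_eq_card_basis (basisRestrictSupport k s), Set.ncard_eq_toFinset_card',
    Set.toFinset_card]

end Pool.Agent.H251R6.SDD
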