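import Pool.Agent.H251R6.SDD.Param

/-!
The variety `X = ℙ¹ × ℙ¹ × ℙ¹` in its Segre embedding in `ℙ⁷` and the map `(x³, y², z²)`.
-/

open MvPolynomial

namespace Pool.Agent.H251R6.SDD

/-- The index set of the homogeneous coordinates of `ℙ⁷`. -/
abbrev I8 : Type := Fin 3 → Fin 2

/-- The variables of the three projective lines. -/
abbrev V6 : Type := Fin 3 × Fin 2

section

variable {k : Type} [Field k]

/-- Exponents of the monomials of the Segre map composed with coordinatewise powers. -/
noncomputable def segM (A : Fin 3 → ℕ) (e : I8) : V6 →₀ ℕ := ∑ c, Finsupp.single (c, e c) (A c)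

/-- The Segre map composed with the power maps with exponents `A`. -/
noncomputable def segP (k : Type) [Field k] (A : Fin 3 → ℕ) (e : I8) : MvPolynomial V6 k :=
  monomial (segM A e) 1

lemma segP_eq (A : Fin 3 → ℕ) (e : I8) :
    segP k A e = ∏ c, (X (c, e c) : MvPolynomial V6 k) ^ (A c) := by
  rw [segP, segM, monomial_sum_one]
  refine Finset.prod_congr rfl fun c _ => ?_
  rw [X_pow_eq_monomial]

lemma vec_segP (A : Fin 3 → ℕ) (t : V6 → k) (e : I8) :
    vec (segP k A) t e = ∏ c, t (c, e c) ^ (A c) := by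
  rw [vec, segP_eq, map_prod]
  refine Finset.prod_congr rfl fun c _ => ?_
  rw [map_pow, eval_X]

lemma segP_ne_zero (A : Fin 3 → ℕ) (e : I8) : segP k A e ≠ 0 := by
  rw [segP]
  intro h
  rw [monomial_eq_zero] at h
  exact one_ne_zero h

/-- Exponents `1, 1, 1`. -/
def one3 : Fin 3 → ℕ := fun _ => 1

/-- Exponents `3, 2, 2`. -/
def exps : Fin 3 → ℕ := ![3, 2, 2]

lemma exps_pos (c : Fin 3) : 0 < exps c := by
  fin_cases c <;> simp [exps]

/-- Coordinatewise powers of the coordinates of the three lines. -/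
def tpow (A : Fin 3 → ℕ) (t : V6 → k) : V6 → k := fun p => t p ^ (A p.1)

lemma vec_tpow (A : Fin 3 → ℕ) (t : V6 → k) :
    vec (segP k one3) (tpow A t) = vec (segP k A) t := by
  funext e
  rw [vec_segP, vec_segP]
  refine Finset.prod_congr rfl fun c _ => ?_
  simp [one3, tpow]

lemma vec_ne_zero_of (A : Fin 3 → ℕ) {t : V6 → k} (h : vec (segP k one3) t ≠ 0) :
    vec (segP k A) t ≠ 0 := by
  obtain ⟨e, he⟩ := Function.ne_iff.mp h
  intro h0
  have h1 := congrFun h0 e
  rw [vec_segP] at h1 he
  simp only [Pi.zero_apply] at h1 he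
  rw [Finset.prod_eq_zero_iff] at h1
  obtain ⟨c, hc, h1⟩ := h1
  have h2 : t (c, e c) = 0 := by
    by_contra h3
    exact pow_ne_zero _ h3 h1
  exact he (Finset.prod_eq_zero hc (by simp [one3, h2]))

lemma vec_ne_zero_of' {A : Fin 3 → ℕ} (hA : ∀ c, 0 < A c) {t : V6 → k}
    (h : vec (segP k A) t ≠ 0) : vec (segP k one3) t ≠ 0 := by
  obtain ⟨e, he⟩ := Function.ne_iff.mp h
  intro h0
  have h1 := congrFun h0 e
  rw [vec_segP] at h1 he
  simp only [Pi.zero_apply] at h1 he
  rw [Finset.prod_eq_zero_iff] at h1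
  obtain ⟨c, hc, h1⟩ := h1
  have h2 : t (c, e c) = 0 := by simpa [one3] using h1
  exact he (Finset.prod_eq_zero hc (by rw [h2, zero_pow (hA c).ne']))

/-- The variety `X`, the Segre image of `ℙ¹ × ℙ¹ × ℙ¹`. -/
noncomputable def XX (k : Type) [Field k] : Set (PSpace k I8) := ParamSet (segP k one3)

/-- The vector of the local cubic formulas of the endomorphism. -/
def loc (j l : Fin 2) (v : I8 → k) : I8 → k := fun e => v e ^ 2 * v ![e 0, j, l]

open Classical in
/-- The endomorphism `([u₀ : u₁], [z₀ : z₁], [w₀ : w₁]) ↦ ([u₀³ : u₁³], [z₀² : z₁²], [w₀² : w₁²])` of `X`,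
in the Segre coordinates `x e = u (e 0) z (e 1) w (e 2)`: `x e ↦ x e ^ 2 * x (e 0, j, l)`, for any
`j, l` for which these values are not all zero. -/
noncomputable def ff (x : PSpace k I8) : PSpace k I8 :=
  if h : ∃ p : Fin 2 × Fin 2, loc p.1 p.2 x.rep ≠ 0 then
    Projectivization.mk k (loc h.choose.1 h.choose.2 x.rep) h.choose_spec
  else x

lemma vec3 (e : I8) : ![e 0, e 1, e 2] = e := by
  funext c
  fin_cases c <;> rfl

lemma loc_seg (j l : Fin 2) (α : k) (t : V6 → k) :
    loc j l (α • vec (segP k one3) t) =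
      (α ^ 3 * t (1, j) * t (2, l)) • vec (segP k exps) t := by
  funext e
  simp only [loc, Pi.smul_apply, smul_eq_mul, vec_segP, Fin.prod_univ_three, one3, exps]
  simp only [Matrix.cons_val_zero, Matrix.cons_val_one, Matrix.cons_val]
  ring

lemma loc_ne_zero {j l : Fin 2} {α : k} {t : V6 → k}
    (h : loc j l (α • vec (segP k one3) t) ≠ 0) : α ^ 3 * t (1, j) * t (2, l) ≠ 0 := by
  intro h0
  rw [loc_seg, h0, zero_smul] at h
  exact h rfl

lemma ff_seg (t : V6 → k) (h : vec (segP k one3) t ≠ 0) :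
    ∃ h' : vec (segP k one3) (tpow exps t) ≠ 0,
      ff (Projectivization.mk k (vec (segP k one3) t) h) =
        Projectivization.mk k (vec (segP k one3) (tpow exps t)) h' := by
  have h' : vec (segP k one3) (tpow exps t) ≠ 0 := by
    rw [vec_tpow]; exact vec_ne_zero_of _ h
  refine ⟨h', ?_⟩
  obtain ⟨α, hα, hrep⟩ := rep_mk _ h
  have hex : ∃ p : Fin 2 × Fin 2,
      loc p.1 p.2 (Projectivization.mk k (vec (segP k one3) t) h).rep ≠ 0 := by
    obtain ⟨e, he⟩ := Function.ne_iff.mp h
    refine ⟨(e 1, e 2), fun h0 => ?_⟩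
    have h1 := congrFun h0 e
    rw [hrep] at h1
    simp only [loc, vec3, Pi.smul_apply, smul_eq_mul, Pi.zero_apply] at h1 he
    have h2 : α * vec (segP k one3) t e ≠ 0 := mul_ne_zero hα he
    exact (mul_ne_zero (pow_ne_zero 2 h2) h2) h1
  have hl : ∀ j l : Fin 2, loc j l (Projectivization.mk k (vec (segP k one3) t) h).rep =
      (α ^ 3 * t (1, j) * t (2, l)) • vec (segP k one3) (tpow exps t) := by
    intro j l
    rw [hrep, loc_seg, vec_tpow]
  rw [ff, dif_pos hex]
  exact mk_eq_of_smul _ _ (hl _ _)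

lemma ff_iter (n : ℕ) (t : V6 → k) (h : vec (segP k one3) t ≠ 0) :
    ∃ h' : vec (segP k one3) (tpow (fun c => exps c ^ n) t) ≠ 0,
      ff^[n] (Projectivization.mk k (vec (segP k one3) t) h) =
        Projectivization.mk k (vec (segP k one3) (tpow (fun c => exps c ^ n) t)) h' := by
  induction n generalizing t with
  | zero =>
    have h0 : tpow (fun c => exps c ^ 0) t = t := by
      funext p; simp [tpow]
    refine ⟨by rw [h0]; exact h, ?_⟩
    simp only [Function.iterate_zero, id_eq]
    congr 1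
    rw [h0]
  | succ n ih =>
    obtain ⟨h1, h2⟩ := ff_seg t h
    obtain ⟨h3, h4⟩ := ih (tpow exps t) h1
    have h5 : tpow (fun c => exps c ^ n) (tpow exps t) = tpow (fun c => exps c ^ (n + 1)) t := by
      funext p
      simp only [tpow]
      rw [← pow_mul, pow_succ, mul_comm]
    refine ⟨by rw [← h5]; exact h3, ?_⟩
    rw [Function.iterate_succ_apply, h2, h4]
    congr 1
    rw [h5]

/-- The equations of the Segre variety. -/
noncomputable def segRel (K : Type) [Field K] : Set (MvPolynomial I8 K) :=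
  Set.range fun q : I8 × I8 × Fin 3 => X q.1 * X q.2.1 -
    X (Function.update q.1 q.2.2 (q.2.1 q.2.2)) * X (Function.update q.2.1 q.2.2 (q.1 q.2.2))

lemma segRel_hom (K : Type) [Field K] : ∀ G ∈ segRel K, G.IsHomogeneous 2 := by
  rintro _ ⟨q, rfl⟩
  exact ((isHomogeneous_X K _).mul (isHomogeneous_X K _)).sub
    ((isHomogeneous_X K _).mul (isHomogeneous_X K _))

lemma closedOver_XX (K : Type) [Field K] [Algebra K k] : IsClosedOver K (XX k) := by
  refine ⟨segRel K, fun G hG => ⟨2, segRel_hom K G hG⟩, ?_⟩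
  have hS : ∀ G ∈ (fun G => MvPolynomial.map (algebraMap K k) G) '' segRel K,
      ∃ e : ℕ, G.IsHomogeneous e := by
    rintro _ ⟨G, hG, rfl⟩
    exact ⟨2, (segRel_hom K G hG).map _⟩
  ext x
  constructor
  · rintro ⟨t, h, rfl⟩
    rw [mem_zeroLocus_mk hS]
    rintro _ ⟨_, ⟨q, rfl⟩, rfl⟩
    simp only [map_sub, map_mul, map_X, eval_X, vec_segP, one3, pow_one]
    rw [sub_eq_zero, ← Finset.prod_mul_distrib, ← Finset.prod_mul_distrib]
    refine Finset.prod_congr rfl fun c _ => ?_
    by_cases hc : c = q.2.2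
    · subst hc
      simp [mul_comm]
    · simp [Function.update_of_ne hc]
  · intro hx
    have hR : ∀ (e e' : I8) (c : Fin 3), x.rep e * x.rep e' =
        x.rep (Function.update e c (e' c)) * x.rep (Function.update e' c (e c)) := by
      intro e e' c
      have h1 := hx _ ⟨_, ⟨(e, e', c), rfl⟩, rfl⟩
      simp only [map_sub, map_mul, map_X, eval_X] at h1
      exact sub_eq_zero.mp h1
    obtain ⟨e₀, he₀⟩ := Function.ne_iff.mp x.rep_nonzero
    simp only [Pi.zero_apply] at he₀
    set v := x.rep with hv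
    have key : vec (segP k one3) (fun p : V6 => v (Function.update e₀ p.1 p.2)) =
        (v e₀ ^ 2) • v := by
      funext e
      rw [vec_segP, Fin.prod_univ_three]
      simp only [one3, pow_one, Pi.smul_apply, smul_eq_mul]
      have h1 := hR (Function.update e₀ 0 (e 0)) (Function.update e₀ 1 (e 1)) 1
      have h2 := hR (Function.update (Function.update e₀ 0 (e 0)) 1 (e 1))
        (Function.update e₀ 2 (e 2)) 2
      have e1 : Function.update (Function.update (Function.update e₀ 0 (e 0)) 1 (e 1)) 2 (e 2) = e := by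
        funext c
        fin_cases c <;> simp [Function.update]
      simp only [Function.update_self, Function.update_idem] at h1 h2
      rw [Function.update_of_ne (by decide), Function.update_eq_self] at h1
      rw [e1, Function.update_of_ne (by decide), Function.update_of_ne (by decide),
        Function.update_eq_self] at h2
      rw [h1, mul_right_comm, h2]
      ring
    have hne : vec (segP k one3) (fun p : V6 => v (Function.update e₀ p.1 p.2)) ≠ 0 := by
      rw [key]
      exact smul_ne_zero (pow_ne_zero 2 he₀) x.rep_nonzero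
    refine ⟨_, hne, ?_⟩
    rw [← Projectivization.mk_rep x]
    symm
    exact mk_eq_of_smul _ _ key

lemma irred_XX [Infinite k] : IsIrred (XX k) :=
  isIrred_paramSet _ ⟨0, segP_ne_zero _ _⟩

lemma tpow_surj [IsAlgClosed k] {A : Fin 3 → ℕ} (hA : ∀ c, 0 < A c) (t : V6 → k) :
    ∃ t' : V6 → k, tpow A t' = t := by
  have h : ∀ p : V6, ∃ y : k, y ^ (A p.1) = t p := fun p =>
    IsAlgClosed.exists_pow_nat_eq _ (hA p.1)
  choose t' ht' using h
  exact ⟨t', funext ht'⟩

lemma endo_XX (K : Type) [Field K] [Algebra K k] [IsAlgClosed k] :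
    IsSurjectiveEndomorphism K (XX k) ff := by
  constructor
  · apply Set.Subset.antisymm
    · rintro _ ⟨_, ⟨t, h, rfl⟩, rfl⟩
      obtain ⟨h1, h2⟩ := ff_seg t h
      exact ⟨_, h1, h2⟩
    · rintro _ ⟨t, h, rfl⟩
      obtain ⟨t', rfl⟩ := tpow_surj exps_pos t
      have h' : vec (segP k one3) t' ≠ 0 := by
        rw [vec_tpow] at h
        exact vec_ne_zero_of' exps_pos h
      obtain ⟨h1, h2⟩ := ff_seg t' h'
      exact ⟨_, ⟨t', h', rfl⟩, h2⟩
  · rintro _ ⟨t, h, rfl⟩
    obtain ⟨e, he⟩ := Function.ne_iff.mp h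
    obtain ⟨α, hα, hrep⟩ := rep_mk _ h
    simp only [Pi.zero_apply] at he
    refine ⟨3, fun i => X i ^ 2 * X ![i 0, e 1, e 2], ?_, ?_, ?_⟩
    · intro i
      exact ((isHomogeneous_X K _).pow 2).mul (isHomogeneous_X K _)
    · refine ⟨e, ?_⟩
      rw [hrep]
      simp only [map_mul, map_pow, aeval_X, vec3, Pi.smul_apply, smul_eq_mul]
      have h2 : α * vec (segP k one3) t e ≠ 0 := mul_ne_zero hα he
      exact mul_ne_zero (pow_ne_zero 2 h2) h2
    · rintro _ ⟨t', h', rfl⟩ hne
      obtain ⟨α', hα', hrep'⟩ := rep_mk _ h'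
      obtain ⟨h1, h2⟩ := ff_seg t' h'
      rw [h2]
      symm
      have e1 : (fun i => aeval (Projectivization.mk k (vec (segP k one3) t') h').rep
          (X i ^ 2 * X ![i 0, e 1, e 2] : MvPolynomial I8 K)) =
          (α' ^ 3 * t' (1, e 1) * t' (2, e 2)) • vec (segP k one3) (tpow exps t') := by
        rw [hrep', vec_tpow, ← loc_seg]
        funext i
        simp only [map_mul, map_pow, aeval_X, loc]
      exact mk_eq_of_smul hne h1 e1

end

end Pool.Agent.H251R6.SDD
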